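import Pool.Agent.L7lead.TC.Stm

/-!
# Lattice polygons without interior lattice points
-/

set_option autoImplicit false

namespace Pool.Agent.L7lead.TC

/-- the lemma for sets in the upper half plane with an edge on the axis -/
theorem pol_half (S : Finset (ℤ × ℤ)) (l : ℤ) (hl : 1 ≤ l) (h0 : ((0 : ℤ), (0 : ℤ)) ∈ S)
    (hl0 : (l, (0 : ℤ)) ∈ S) (hy : ∀ v ∈ S, 0 ≤ v.2) (hx : ∀ v ∈ S, v.2 = 0 → 0 ≤ v.1 ∧ v.1 ≤ l)
    (hfree : ∀ m : ℤ × ℤ, ∃ u : ℤ × ℤ, u ≠ 0 ∧ ∀ s ∈ S, pair u m ≤ pair u s)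
    (hh : ∃ v ∈ S, 2 ≤ v.2) :
    ∃ k : ℤ, (∀ v ∈ S, 0 ≤ v.1 - k * v.2 ∧ v.1 - k * v.2 ≤ 1) ∨
      (∀ v ∈ S, 0 ≤ v.1 - k * v.2 ∧ 0 ≤ v.2 ∧ (v.1 - k * v.2) + v.2 ≤ 2) := by
  obtain ⟨⟨X, h⟩, hX, h2⟩ := hh
  simp only at h2
  -- the alternative
  have alt : ∀ k : ℤ, (∀ v ∈ S, 1 ≤ v.2 → k * v.2 ≤ v.1) ∨
      (∀ v ∈ S, 1 ≤ v.2 → v.1 ≤ k * v.2 - l * (v.2 - 1)) := by
    intro k
    obtain ⟨⟨a, b⟩, hu, hm⟩ := hfree (k, 1)
    have e1 := hm _ h0
    have e2 := hm _ hl0
    have e3 := hm _ hX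
    simp only [pair] at e1 e2 e3 hm
    rcases lt_trichotomy a 0 with ha | ha | ha
    · right
      intro v hv hv1
      have e4 := hm v hv
      have e5 : a * (k - l) + b ≤ 0 := by linarith
      have e6 : a * (v.1 - k) + b * (v.2 - 1) ≥ 0 := by linarith
      have e7 : (a * (k - l) + b) * (v.2 - 1) ≤ 0 :=
        mul_nonpos_of_nonpos_of_nonneg e5 (by linarith)
      have e8 : a * (v.1 - k - (k - l) * (v.2 - 1)) ≥ 0 := by nlinarith
      have e9 : v.1 - k - (k - l) * (v.2 - 1) ≤ 0 := by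
        by_contra hc
        push Not at hc
        nlinarith
      nlinarith
    · exfalso
      subst ha
      have hb : b = 0 := by nlinarith
      exact hu (by simp [hb])
    · left
      intro v hv hv1
      have e4 := hm v hv
      have e5 : a * k + b ≤ 0 := by linarith
      have e7 : (a * k + b) * (v.2 - 1) ≤ 0 :=
        mul_nonpos_of_nonpos_of_nonneg e5 (by linarith)
      have e8 : a * (v.1 - k * v.2) ≥ 0 := by nlinarith
      have e9 : 0 ≤ v.1 - k * v.2 := by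
        by_contra hc
        push Not at hc
        nlinarith
      linarith
  -- the largest `k` with the first property
  have hex : ∃ k : ℤ, (∀ v ∈ S, 1 ≤ v.2 → k * v.2 ≤ v.1) ∧
      ∀ j : ℤ, (∀ v ∈ S, 1 ≤ v.2 → j * v.2 ≤ v.1) → j ≤ k := by
    obtain ⟨B, hB⟩ : ∃ B : ℤ, ∀ v ∈ S, -B ≤ v.1 := by
      obtain ⟨w, hw, hmin⟩ := Finset.exists_min_image S (fun v => v.1) ⟨_, h0⟩
      exact ⟨-w.1, fun v hv => by have := hmin v hv; simpa using this⟩
    have hB0 : 0 ≤ B := by have := hB _ h0; simp at this; exact this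
    have hbdd : ∃ b : ℤ, ∀ z : ℤ, (∀ v ∈ S, 1 ≤ v.2 → z * v.2 ≤ v.1) → z ≤ b := by
      refine ⟨|X|, fun z hz => ?_⟩
      have h1 := hz _ hX (by simp only; linarith)
      simp only at h1
      by_contra hc
      push Not at hc
      have := le_abs_self X
      have := abs_nonneg X
      nlinarith
    have hin : ∃ z : ℤ, ∀ v ∈ S, 1 ≤ v.2 → z * v.2 ≤ v.1 := by
      refine ⟨-B, fun v hv hv1 => ?_⟩
      have := hB v hv
      nlinarith
    obtain ⟨k, hk1, hk2⟩ := Int.exists_greatest_of_bdd hbdd hin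
    exact ⟨k, hk1, hk2⟩
  obtain ⟨k, hk, hmax⟩ := hex
  have hk' : ∀ v ∈ S, 1 ≤ v.2 → v.1 ≤ (k + 1) * v.2 - l * (v.2 - 1) := by
    rcases alt (k + 1) with h' | h'
    · have := hmax _ h'
      omega
    · exact h'
  -- `l ≤ 2`
  have t1 := hk _ hX (by simp only; linarith)
  have t2 := hk' _ hX (by simp only; linarith)
  simp only at t1 t2
  have hl2 : l * (h - 1) ≤ h := by nlinarith
  have hl3 : l ≤ 2 := by nlinarith
  refine ⟨k, ?_⟩
  rcases (show l = 1 ∨ l = 2 by omega) with rfl | rfl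
  · left
    intro v hv
    rcases (hy v hv).eq_or_lt with h' | h'
    · have := hx v hv h'.symm
      rw [← h']
      constructor <;> nlinarith [this.1, this.2]
    · have h1 := hk v hv (by omega)
      have h3 := hk' v hv (by omega)
      constructor <;> nlinarith
  · right
    intro v hv
    rcases (hy v hv).eq_or_lt with h' | h'
    · have := hx v hv h'.symm
      rw [← h']
      refine ⟨?_, le_refl _, ?_⟩ <;> nlinarith [this.1, this.2]
    · have h1 := hk v hv (by omega)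
      have h3 := hk' v hv (by omega)
      refine ⟨by nlinarith, hy v hv, ?_⟩
      nlinarith

theorem s_POL : S_POL := by
  intro S hS hfree
  obtain ⟨p, hp, hpmin⟩ := Finset.exists_min_image S (fun v => toLex v) hS
  have hlex : ∀ v ∈ S, p.1 < v.1 ∨ p.1 = v.1 ∧ p.2 ≤ v.2 := by
    intro v hv
    have := hpmin v hv
    rw [Prod.Lex.toLex_le_toLex] at this
    exact this
  by_cases hB : ∃ v ∈ S, p.1 < v.1
  swap
  · push Not at hB
    refine ⟨0, -1, 1, 0, (0, p.1), by norm_num, Or.inl fun v hv => ?_⟩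
    have h1 := hB v hv
    have h2 := hlex v hv
    simp only [mat, Prod.snd_sub, Prod.fst_sub]
    constructor <;> omega
  -- the next point
  obtain ⟨q, hq, hqmin⟩ := Finset.exists_min_image (S.filter fun v => p.1 < v.1)
    (fun v => ((v.2 - p.2 : ℤ) : ℚ) / ((v.1 - p.1 : ℤ) : ℚ)) (by
      obtain ⟨v, hv, hv1⟩ := hB
      exact ⟨v, Finset.mem_filter.mpr ⟨hv, hv1⟩⟩)
  rw [Finset.mem_filter] at hq
  obtain ⟨hqS, hq1⟩ := hq
  set d1 := q.1 - p.1 with hd1
  set d2 := q.2 - p.2 with hd2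
  have hd1pos : 0 < d1 := by omega
  -- the primitive vector
  obtain ⟨g, e1, e2, hgpos, hcop, hg1, hg2⟩ : ∃ g e1 e2 : ℤ, 0 < g ∧ IsCoprime e1 e2 ∧ d1 = g * e1 ∧
      d2 = g * e2 := by
    have hne : d1 ≠ 0 ∨ d2 ≠ 0 := Or.inl hd1pos.ne'
    have hg0 : 0 < Int.gcd d1 d2 := Int.gcd_pos_iff.mpr hne
    refine ⟨Int.gcd d1 d2, d1 / Int.gcd d1 d2, d2 / Int.gcd d1 d2, by exact_mod_cast hg0, ?_, ?_, ?_⟩
    · rw [Int.isCoprime_iff_gcd_eq_one]
      exact Int.gcd_ediv_gcd_ediv_gcd hg0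
    · exact (Int.mul_ediv_cancel' (Int.gcd_dvd_left ..)).symm
    · exact (Int.mul_ediv_cancel' (Int.gcd_dvd_right ..)).symm
  obtain ⟨a, b, hab⟩ := hcop
  have he1 : 0 < e1 := by
    by_contra hc
    push Not at hc
    nlinarith
  -- the coordinates
  set X : ℤ × ℤ → ℤ := fun v => a * (v.1 - p.1) + b * (v.2 - p.2) with hX
  set Y : ℤ × ℤ → ℤ := fun v => -e2 * (v.1 - p.1) + e1 * (v.2 - p.2) with hY
  have hYnn : ∀ v ∈ S, 0 ≤ Y v := by
    intro v hv
    have key : 0 ≤ d1 * (v.2 - p.2) - d2 * (v.1 - p.1) := by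
      rcases hlex v hv with h1 | ⟨h1, h2⟩
      · have h3 := hqmin v (Finset.mem_filter.mpr ⟨hv, h1⟩)
        rw [div_le_div_iff₀ (by exact_mod_cast (by omega : 0 < q.1 - p.1))
          (by exact_mod_cast (by omega : 0 < v.1 - p.1))] at h3
        have h4 : (q.2 - p.2) * (v.1 - p.1) ≤ (v.2 - p.2) * (q.1 - p.1) := by exact_mod_cast h3
        rw [← hd1, ← hd2] at h4
        linarith
      · rw [← h1]
        nlinarith
    have h5 : 0 ≤ g * Y v := by
      have : g * Y v = d1 * (v.2 - p.2) - d2 * (v.1 - p.1) := by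
        rw [hY, hg1, hg2]
        ring
      rw [this]
      exact key
    by_contra hc
    push Not at hc
    nlinarith
  have inv1 : ∀ v, v.1 - p.1 = e1 * X v - b * Y v := by
    intro v
    have : e1 * X v - b * Y v = (a * e1 + b * e2) * (v.1 - p.1) := by
      rw [hX, hY]
      ring
    rw [this, hab, one_mul]
  have inv2 : ∀ v, v.2 - p.2 = e2 * X v + a * Y v := by
    intro v
    have : e2 * X v + a * Y v = (a * e1 + b * e2) * (v.2 - p.2) := by
      rw [hX, hY]
      ring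
    rw [this, hab, one_mul]
  have hX0 : ∀ v ∈ S, Y v = 0 → 0 ≤ X v := by
    intro v hv h0
    have h1 := inv1 v
    rw [h0, mul_zero, sub_zero] at h1
    have h2 : 0 ≤ v.1 - p.1 := by
      rcases hlex v hv with h | h
      · omega
      · omega
    by_contra hc
    push Not at hc
    nlinarith
  by_cases hsmall : ∀ v ∈ S, Y v ≤ 1
  · refine ⟨a, b, -e2, e1, (a * p.1 + b * p.2, -e2 * p.1 + e1 * p.2), by linarith, Or.inl ?_⟩
    intro v hv
    have : (mat a b (-e2) e1 v - (a * p.1 + b * p.2, -e2 * p.1 + e1 * p.2)).2 = Y v := by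
      simp only [mat, hY, Prod.snd_sub]
      ring
    rw [this]
    exact ⟨hYnn v hv, hsmall v hv⟩
  push Not at hsmall
  obtain ⟨w, hw, hw2⟩ := hsmall
  -- the last point of the edge
  obtain ⟨r, hr, hrmax⟩ := Finset.exists_max_image (S.filter fun v => Y v = 0) X
    ⟨q, Finset.mem_filter.mpr ⟨hqS, by
      have h1 : Y q = -e2 * d1 + e1 * d2 := rfl
      rw [h1, hg1, hg2]
      ring⟩⟩
  rw [Finset.mem_filter] at hr
  have hXq : X q = g := by
    have h1 : X q = a * d1 + b * d2 := rfl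
    rw [h1, hg1, hg2]
    linear_combination g * hab
  have hYq : Y q = 0 := by
    have h1 : Y q = -e2 * d1 + e1 * d2 := rfl
    rw [h1, hg1, hg2]
    ring
  have hl : 1 ≤ X r := by
    have := hrmax q (Finset.mem_filter.mpr ⟨hqS, hYq⟩)
    omega
  obtain ⟨k, hk⟩ := pol_half (S.image fun v => (X v, Y v)) (X r) hl
    (Finset.mem_image.mpr ⟨p, hp, by simp [hX, hY]⟩)
    (Finset.mem_image.mpr ⟨r, hr.1, by rw [hr.2]⟩)
    (by
      intro v hv
      obtain ⟨v', hv', rfl⟩ := Finset.mem_image.mp hv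
      exact hYnn v' hv')
    (by
      intro v hv h0
      obtain ⟨v', hv', rfl⟩ := Finset.mem_image.mp hv
      exact ⟨hX0 v' hv' h0, hrmax v' (Finset.mem_filter.mpr ⟨hv', h0⟩)⟩)
    (by
      intro m
      obtain ⟨u, hu, hum⟩ := hfree (p.1 + (e1 * m.1 - b * m.2), p.2 + (e2 * m.1 + a * m.2))
      refine ⟨(e1 * u.1 + e2 * u.2, -b * u.1 + a * u.2), ?_, ?_⟩
      · intro h0
        rw [Prod.mk_eq_zero] at h0
        apply hu
        have h1 : (a * e1 + b * e2) * u.1 = 0 := by linear_combination a * h0.1 - e2 * h0.2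
        have h2 : (a * e1 + b * e2) * u.2 = 0 := by linear_combination b * h0.1 + e1 * h0.2
        rw [hab, one_mul] at h1 h2
        exact Prod.ext h1 h2
      · intro v hv
        obtain ⟨v', hv', rfl⟩ := Finset.mem_image.mp hv
        have h1 := hum v' hv'
        have h2 := inv1 v'
        have h3 := inv2 v'
        simp only [pair] at h1 ⊢
        have h4 : (e1 * u.1 + e2 * u.2) * X v' + (-b * u.1 + a * u.2) * Y v' =
            u.1 * (v'.1 - p.1) + u.2 * (v'.2 - p.2) := by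
          rw [h2, h3]
          ring
        rw [h4]
        linarith)
    ⟨(X w, Y w), Finset.mem_image.mpr ⟨w, hw, rfl⟩, by simp only; omega⟩
  rcases hk with hk | hk
  · refine ⟨e2, -e1, a + k * e2, b - k * e1,
      (e2 * p.1 - e1 * p.2, (a + k * e2) * p.1 + (b - k * e1) * p.2), by linear_combination hab,
      Or.inl ?_⟩
    intro v hv
    have : (mat e2 (-e1) (a + k * e2) (b - k * e1) v -
        (e2 * p.1 - e1 * p.2, (a + k * e2) * p.1 + (b - k * e1) * p.2)).2 = X v - k * Y v := by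
      simp only [mat, hX, hY, Prod.snd_sub]
      ring
    rw [this]
    exact hk (X v, Y v) (Finset.mem_image.mpr ⟨v, hv, rfl⟩)
  · refine ⟨a + k * e2, b - k * e1, -e2, e1,
      ((a + k * e2) * p.1 + (b - k * e1) * p.2, -e2 * p.1 + e1 * p.2), by linear_combination hab,
      Or.inr ?_⟩
    intro v hv
    have h1 : (mat (a + k * e2) (b - k * e1) (-e2) e1 v -
        ((a + k * e2) * p.1 + (b - k * e1) * p.2, -e2 * p.1 + e1 * p.2)).1 = X v - k * Y v := by
      simp only [mat, hX, hY, Prod.fst_sub]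
      ring
    have h2 : (mat (a + k * e2) (b - k * e1) (-e2) e1 v -
        ((a + k * e2) * p.1 + (b - k * e1) * p.2, -e2 * p.1 + e1 * p.2)).2 = Y v := by
      simp only [mat, hY, Prod.snd_sub]
      ring
    rw [h1, h2]
    exact hk (X v, Y v) (Finset.mem_image.mpr ⟨v, hv, rfl⟩)

end Pool.Agent.L7lead.TC
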