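import Pool.Agent.L7lead.TC.Norm
import Pool.Agent.L7lead.TC.Pol

/-!
# Covers of toric surfaces: assembly
-/

set_option autoImplicit false

namespace Pool.Agent.L7lead.TC

open MvPolynomial Pool.Agent.N197.Pln Pool.Agent.L7h69.Scr

/-- the transposed map -/
def tr (p q r s : ℤ) (u : ℤ × ℤ) : ℤ × ℤ := (p * u.1 + r * u.2, q * u.1 + s * u.2)

theorem pair_tr (p q r s : ℤ) (u m : ℤ × ℤ) : pair (tr p q r s u) m = pair u (mat p q r s m) := by
  simp only [pair, tr, mat]
  ring

theorem tr_add (p q r s : ℤ) (u w : ℤ × ℤ) :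
    tr p q r s (u + w) = tr p q r s u + tr p q r s w := by
  ext <;> simp only [tr, Prod.fst_add, Prod.snd_add] <;> ring

theorem tr_smul (p q r s t : ℤ) (u : ℤ × ℤ) : tr p q r s (t • u) = t • tr p q r s u := by
  ext <;> simp only [tr, Prod.smul_fst, Prod.smul_snd, smul_eq_mul] <;> ring

theorem pair_add_left (u w m : ℤ × ℤ) : pair (u + w) m = pair u m + pair w m := by
  simp only [pair, Prod.fst_add, Prod.snd_add]
  ring

theorem pair_add_right (u m m' : ℤ × ℤ) : pair u (m + m') = pair u m + pair u m' := by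
  simp only [pair, Prod.fst_add, Prod.snd_add]
  ring

theorem pair_sub_right (u m m' : ℤ × ℤ) : pair u (m - m') = pair u m - pair u m' := by
  simp only [pair, Prod.fst_sub, Prod.snd_sub]
  ring

theorem pair_smul_left (t : ℤ) (u m : ℤ × ℤ) : pair (t • u) m = t * pair u m := by
  simp only [pair, Prod.smul_fst, Prod.smul_snd, smul_eq_mul]
  ring

theorem low_le (P : LatticePolygon) (u : ℤ × ℤ) {m : ℤ × ℤ} (hm : m ∈ P.points) :
    P.low u ≤ pair u m := Finset.inf'_le _ hm

theorem exists_low (P : LatticePolygon) (u : ℤ × ℤ) : ∃ m ∈ P.points, P.low u = pair u m :=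
  Finset.exists_mem_eq_inf' P.nonempty (pair u)

theorem low_add (P : LatticePolygon) (u w : ℤ × ℤ) : P.low u + P.low w ≤ P.low (u + w) := by
  obtain ⟨m, hm, he⟩ := exists_low P (u + w)
  rw [he, pair_add_left]
  exact add_le_add (low_le P u hm) (low_le P w hm)

theorem low_smul (P : LatticePolygon) (t : ℤ) (u : ℤ × ℤ) (ht : 0 ≤ t) :
    P.low (t • u) = t * P.low u := by
  apply le_antisymm
  · obtain ⟨m, hm, he⟩ := exists_low P u
    have := low_le P (t • u) hm
    rw [he]
    rwa [pair_smul_left] at this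
  · obtain ⟨m, hm, he⟩ := exists_low P (t • u)
    rw [he, pair_smul_left]
    exact mul_le_mul_of_nonneg_left (low_le P u hm) ht

section

variable {ι : Type} [Fintype ι] {n : ℕ} [NeZero n] {f : ι → MvPolynomial (Fin 2) ℂ}
  {a : ι → ZMod n} {P : ι → LatticePolygon}

omit [NeZero n] in
theorem sysOf (hunr : ∀ u : ℤ × ℤ, ∑ i, ((P i).low u : ZMod n) * a i = 0)
    (hpg : ∀ (k : ℤ) (m : ℤ × ℤ), ∃ u : ℤ × ℤ, u ≠ 0 ∧
      (pair u m : ℚ) ≤ ∑ i, (((k • a i).val : ℚ) / n) * ((P i).low u : ℚ))
    (p q r s : ℤ) (hdet : p * s - q * r = 1 ∨ p * s - q * r = -1) :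
    Sys n a (fun i u => (P i).low (tr p q r s u)) where
  super i u w := by
    rw [tr_add]
    exact low_add _ _ _
  homog i t u ht := by
    rw [tr_smul]
    exact low_smul _ _ _ ht
  unr u := hunr _
  free k m := by
    obtain ⟨δ, hδ⟩ : ∃ δ : ℤ, δ * (p * s - q * r) = 1 := by
      rcases hdet with h | h
      · exact ⟨1, by rw [h]; norm_num⟩
      · exact ⟨-1, by rw [h]; norm_num⟩
    obtain ⟨u, hu, hle⟩ := hpg k (δ * (s * m.1 - q * m.2), δ * (-r * m.1 + p * m.2))
    have h1 : tr p q r s (δ * (s * u.1 - r * u.2), δ * (-q * u.1 + p * u.2)) = u := by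
      ext
      · simp only [tr]
        linear_combination u.1 * hδ
      · simp only [tr]
        linear_combination u.2 * hδ
    have h2 : mat p q r s (δ * (s * m.1 - q * m.2), δ * (-r * m.1 + p * m.2)) = m := by
      ext
      · simp only [mat]
        linear_combination m.1 * hδ
      · simp only [mat]
        linear_combination m.2 * hδ
    refine ⟨(δ * (s * u.1 - r * u.2), δ * (-q * u.1 + p * u.2)), ?_, ?_⟩
    · intro h0
      rw [h0] at h1
      apply hu
      rw [← h1]
      ext <;> simp [tr]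
    · rw [h1]
      have h3 : pair (δ * (s * u.1 - r * u.2), δ * (-q * u.1 + p * u.2)) m =
          pair u (δ * (s * m.1 - q * m.2), δ * (-r * m.1 + p * m.2)) := by
        conv_lhs => rw [← h2]
        rw [← pair_tr, h1]
      rw [h3]
      exact hle

/-- in the coordinates given by a unimodular matrix -/
theorem reduce (hmon : S_MON) (hf : ∀ i, IsSection (P i) (f i))
    (hunr : ∀ u : ℤ × ℤ, ∑ i, ((P i).low u : ZMod n) * a i = 0)
    (p q r s : ℤ) (hdet : p * s - q * r = 1 ∨ p * s - q * r = -1) :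
    ∃ g : ι → MvPolynomial (Fin 2) ℂ, (∀ i, g i ≠ 0) ∧
      (∀ i, ∀ m ∈ (g i).support, ∀ u, (P i).low (tr p q r s u) ≤
        pair u (expo m + ((P i).low (tr p q r s (1, 0)), (P i).low (tr p q r s (0, 1))))) ∧
      (AffineDominatedByCurves n g a → AffineDominatedByCurves n f a) := by
  have hc : ∀ i, ∀ m ∈ (f i).support, ∀ u, (P i).low (tr p q r s u) ≤
      pair u (mat p q r s (expo m)) := by
    intro i m hm u
    rw [← pair_tr]
    exact (hf i).exponents m hm _
  obtain ⟨g, hg0, hg, hdom⟩ := hmon ι n f a p q r s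
    (fun i => ((P i).low (tr p q r s (1, 0)), (P i).low (tr p q r s (0, 1))))
    (fun i => (hf i).ne_zero) hdet
    (fun i m hm => by
      have h1 := hc i m hm (1, 0)
      have h2 := hc i m hm (0, 1)
      simp only [pair] at h1 h2
      constructor
      · simpa using h1
      · simpa using h2)
    (hunr _) (hunr _)
  refine ⟨g, hg0, ?_, hdom⟩
  intro i m hm u
  obtain ⟨m', hm', he⟩ := hg i m hm
  rw [he]
  exact hc i m' hm' u

end

section

variable {H : ℤ × ℤ → ℤ} {S : Finset (ℤ × ℤ)} {G : Prop}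

/-- `H` is additive on the cones of a scroll, in the coordinates given by the matrix -/
def AddScroll (H : ℤ × ℤ → ℤ) (p q r s : ℤ) (e : ℕ) : Prop :=
  (∀ y x : ℤ, 0 ≤ x → H (tr p q r s (y, x)) = H (tr p q r s (y, 0)) + H (tr p q r s (0, x))) ∧
  (∀ z t : ℤ, 0 ≤ t → H (tr p q r s (z - t * e, -t)) =
      H (tr p q r s (z, 0)) + H (tr p q r s (-(t * e), -t)))

/-- `H` is additive on the cones of the plane, in the coordinates given by the matrix -/
def AddPlane (H : ℤ × ℤ → ℤ) (p q r s : ℤ) : Prop :=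
  (∀ y x : ℤ, 0 ≤ y → 0 ≤ x → H (tr p q r s (y, x)) =
    H (tr p q r s (y, 0)) + H (tr p q r s (0, x))) ∧
  (∀ u t : ℤ, 0 ≤ u → 0 ≤ t → H (tr p q r s (u - t, -t)) =
    H (tr p q r s (u, 0)) + H (tr p q r s (-t, -t))) ∧
  (∀ u t : ℤ, 0 ≤ u → 0 ≤ t → H (tr p q r s (-t, u - t)) =
    H (tr p q r s (0, u)) + H (tr p q r s (-t, -t)))

/-- minimum of a linear function in the new coordinates -/
theorem hmin (hS : ∀ v ∈ S, ∀ w, H w ≤ pair w v) (hS' : ∀ u, ∃ v ∈ S, pair u v = H u)
    (p q r s : ℤ) (c : ℤ × ℤ) (Y X : ℤ) :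
    (∃ v ∈ S, H (tr p q r s (Y, X)) =
      Y * ((mat p q r s v - c).1 + c.1) + X * ((mat p q r s v - c).2 + c.2)) ∧
    ∀ v ∈ S, H (tr p q r s (Y, X)) ≤
      Y * ((mat p q r s v - c).1 + c.1) + X * ((mat p q r s v - c).2 + c.2) := by
  have key : ∀ v, pair (tr p q r s (Y, X)) v =
      Y * ((mat p q r s v - c).1 + c.1) + X * ((mat p q r s v - c).2 + c.2) := by
    intro v
    rw [pair_tr]
    simp only [pair, Prod.fst_sub, Prod.snd_sub, sub_add_cancel]
  constructor
  · obtain ⟨v, hv, he⟩ := hS' (tr p q r s (Y, X))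
    exact ⟨v, hv, by rw [← he, key]⟩
  · intro v hv
    rw [← key]
    exact hS v hv _

theorem add_trapezoid (hS : ∀ v ∈ S, ∀ w, H w ≤ pair w v) (hS' : ∀ u, ∃ v ∈ S, pair u v = H u)
    (p q r s : ℤ) (c : ℤ × ℤ) (e : ℕ) (B : ℤ) (hBe : e ≤ B)
    (h00 : ∃ v ∈ S, mat p q r s v - c = (0, 0)) (h0B : ∃ v ∈ S, mat p q r s v - c = (0, B))
    (h10 : ∃ v ∈ S, mat p q r s v - c = (1, 0)) (h1B : ∃ v ∈ S, mat p q r s v - c = (1, B - e))
    (hin : ∀ v ∈ S, ((mat p q r s v - c).1 = 0 ∧ 0 ≤ (mat p q r s v - c).2 ∧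
      (mat p q r s v - c).2 ≤ B) ∨ ((mat p q r s v - c).1 = 1 ∧ 0 ≤ (mat p q r s v - c).2 ∧
      (mat p q r s v - c).2 ≤ B - e)) : AddScroll H p q r s e := by
  have hm := hmin hS hS' p q r s c
  have v1 : ∀ y x : ℤ, 0 ≤ x → H (tr p q r s (y, x)) = min 0 y + y * c.1 + x * c.2 := by
    intro y x hx
    obtain ⟨⟨v, hv, he⟩, hle⟩ := hm y x
    apply le_antisymm
    · obtain ⟨a, ha, hae⟩ := h00
      obtain ⟨b, hb, hbe⟩ := h10
      have e1 := hle a ha
      have e2 := hle b hb
      rw [hae] at e1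
      rw [hbe] at e2
      simp only at e1 e2
      rcases min_cases (0 : ℤ) y with ⟨h, _⟩ | ⟨h, _⟩ <;> rw [h] <;> linarith
    · rw [he]
      rcases hin v hv with ⟨h1, h2, h3⟩ | ⟨h1, h2, h3⟩
      · rw [h1]
        have := min_le_left (0 : ℤ) y
        nlinarith [mul_nonneg hx h2]
      · rw [h1]
        have := min_le_right (0 : ℤ) y
        nlinarith [mul_nonneg hx h2]
  have v2 : ∀ z t : ℤ, 0 ≤ t → H (tr p q r s (z - t * e, -t)) =
      min 0 z - t * B + (z - t * e) * c.1 - t * c.2 := by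
    intro z t ht
    obtain ⟨⟨v, hv, he⟩, hle⟩ := hm (z - t * e) (-t)
    apply le_antisymm
    · obtain ⟨a, ha, hae⟩ := h0B
      obtain ⟨b, hb, hbe⟩ := h1B
      have e1 := hle a ha
      have e2 := hle b hb
      rw [hae] at e1
      rw [hbe] at e2
      simp only at e1 e2
      rcases min_cases (0 : ℤ) z with ⟨h, _⟩ | ⟨h, _⟩ <;> rw [h] <;> nlinarith
    · rw [he]
      rcases hin v hv with ⟨h1, h2, h3⟩ | ⟨h1, h2, h3⟩
      · rw [h1]
        have := min_le_left (0 : ℤ) z
        nlinarith [mul_nonneg ht (sub_nonneg.mpr h3)]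
      · rw [h1]
        have := min_le_right (0 : ℤ) z
        nlinarith [mul_nonneg ht (sub_nonneg.mpr h3)]
  constructor
  · intro y x hx
    rw [v1 y x hx, v1 y 0 le_rfl, v1 0 x hx]
    simp
  · intro z t ht
    have e0 := v2 0 t ht
    simp only [zero_sub, min_self] at e0
    rw [v2 z t ht, v1 z 0 le_rfl, e0]
    ring

theorem add_segment (hS : ∀ v ∈ S, ∀ w, H w ≤ pair w v) (hS' : ∀ u, ∃ v ∈ S, pair u v = H u)
    (p q r s : ℤ) (c : ℤ × ℤ) (hin : ∀ v ∈ S, (mat p q r s v - c).1 = 0) :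
    AddScroll H p q r s 0 := by
  have hm := hmin hS hS' p q r s c
  have key : ∀ y x : ℤ, H (tr p q r s (y, x)) = H (tr p q r s (y, 0)) + H (tr p q r s (0, x)) := by
    intro y x
    obtain ⟨⟨v, hv, he⟩, hle⟩ := hm y x
    obtain ⟨⟨v1, hv1, he1⟩, hle1⟩ := hm y 0
    obtain ⟨⟨v2, hv2, he2⟩, hle2⟩ := hm 0 x
    have a1 := hle v2 hv2
    have a2 := hle2 v hv
    rw [hin v hv] at he a2
    rw [hin v1 hv1] at he1
    rw [hin v2 hv2] at he2 a1
    linarith
  refine ⟨fun y x _ => key y x, fun z t _ => ?_⟩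
  have := key z (-t)
  simpa using this

theorem add_triangle (hS : ∀ v ∈ S, ∀ w, H w ≤ pair w v) (hS' : ∀ u, ∃ v ∈ S, pair u v = H u)
    (p q r s : ℤ) (c : ℤ × ℤ)
    (h00 : ∃ v ∈ S, mat p q r s v - c = (0, 0)) (h20 : ∃ v ∈ S, mat p q r s v - c = (2, 0))
    (h02 : ∃ v ∈ S, mat p q r s v - c = (0, 2))
    (hin : ∀ v ∈ S, 0 ≤ (mat p q r s v - c).1 ∧ 0 ≤ (mat p q r s v - c).2 ∧
          (mat p q r s v - c).1 + (mat p q r s v - c).2 ≤ 2) : AddPlane H p q r s := by
  have hm := hmin hS hS' p q r s c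
  have v1 : ∀ y x : ℤ, H (tr p q r s (y, x)) = min 0 (min (2 * y) (2 * x)) + y * c.1 + x * c.2 := by
    intro y x
    obtain ⟨⟨v, hv, he⟩, hle⟩ := hm y x
    apply le_antisymm
    · obtain ⟨a, ha, hae⟩ := h00
      obtain ⟨b, hb, hbe⟩ := h20
      obtain ⟨d, hd, hde⟩ := h02
      have e1 := hle a ha
      have e2 := hle b hb
      have e3 := hle d hd
      rw [hae] at e1
      rw [hbe] at e2
      rw [hde] at e3
      simp only at e1 e2 e3
      have : H (tr p q r s (y, x)) - y * c.1 - x * c.2 ≤ min 0 (min (2 * y) (2 * x)) :=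
        le_min (by linarith) (le_min (by linarith) (by linarith))
      linarith
    · rw [he]
      obtain ⟨h1, h2, h3⟩ := hin v hv
      set a1 := (mat p q r s v - c).1
      set a2 := (mat p q r s v - c).2
      set M := min 0 (min (2 * y) (2 * x)) with hM
      have m0 : M ≤ 0 := min_le_left _ _
      have m1 : M ≤ 2 * y := (min_le_right _ _).trans (min_le_left _ _)
      have m2 : M ≤ 2 * x := (min_le_right _ _).trans (min_le_right _ _)
      have t1 := mul_nonneg h1 (sub_nonneg.mpr m1)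
      have t2 := mul_nonneg h2 (sub_nonneg.mpr m2)
      have t3 := mul_nonneg (sub_nonneg.mpr h3) (neg_nonneg.mpr m0)
      nlinarith
  refine ⟨?_, ?_, ?_⟩
  · intro y x hy hx
    rw [v1, v1, v1]
    have e1 : min 0 (min (2 * y) (2 * x)) = 0 := min_eq_left (le_min (by linarith) (by linarith))
    have e2 : min 0 (min (2 * y) (2 * 0)) = 0 := min_eq_left (le_min (by linarith) (by linarith))
    have e3 : min 0 (min (2 * 0) (2 * x)) = 0 := min_eq_left (le_min (by linarith) (by linarith))
    rw [e1, e2, e3]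
    ring
  · intro u t hu ht
    rw [v1, v1, v1]
    have e1 : min 0 (min (2 * (u - t)) (2 * -t)) = 2 * -t := by
      rw [min_eq_right (by linarith : 2 * -t ≤ 2 * (u - t)), min_eq_right (by linarith)]
    have e2 : min 0 (min (2 * u) (2 * 0)) = 0 := min_eq_left (le_min (by linarith) (by linarith))
    have e3 : min 0 (min (2 * -t) (2 * -t)) = 2 * -t := by
      rw [min_self, min_eq_right (by linarith)]
    rw [e1, e2, e3]
    ring
  · intro u t hu ht
    rw [v1, v1, v1]
    have e1 : min 0 (min (2 * -t) (2 * (u - t))) = 2 * -t := by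
      rw [min_eq_left (by linarith : 2 * -t ≤ 2 * (u - t)), min_eq_right (by linarith)]
    have e2 : min 0 (min (2 * 0) (2 * u)) = 0 := min_eq_left (le_min (by linarith) (by linarith))
    have e3 : min 0 (min (2 * -t) (2 * -t)) = 2 * -t := by
      rw [min_self, min_eq_right (by linarith)]
    rw [e1, e2, e3]
    ring

theorem strip (hne : S.Nonempty) (hS : ∀ v ∈ S, ∀ w, H w ≤ pair w v)
    (hS' : ∀ u, ∃ v ∈ S, pair u v = H u)
    (hscr : ∀ (p q r s : ℤ) (e : ℕ), (p * s - q * r = 1 ∨ p * s - q * r = -1) →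
      AddScroll H p q r s e → G)
    (p q r s : ℤ) (c : ℤ × ℤ) (hdet : p * s - q * r = 1 ∨ p * s - q * r = -1)
    (hin : ∀ v ∈ S, 0 ≤ (mat p q r s v - c).1 ∧ (mat p q r s v - c).1 ≤ 1) : G := by
  classical
  by_cases hb : ∃ v ∈ S, (mat p q r s v - c).1 = 0
  swap
  · push Not at hb
    apply hscr p q r s 0 hdet
    apply add_segment hS hS' p q r s (c.1 + 1, c.2)
    intro v hv
    have h1 := hin v hv
    have h2 := hb v hv
    simp only [Prod.fst_sub] at h1 h2 ⊢
    omega
  by_cases ht : ∃ v ∈ S, (mat p q r s v - c).1 = 1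
  swap
  · push Not at ht
    apply hscr p q r s 0 hdet
    apply add_segment hS hS' p q r s c
    intro v hv
    have h1 := hin v hv
    have h2 := ht v hv
    omega
  have hbn : (S.filter fun v => (mat p q r s v - c).1 = 0).Nonempty := by
    obtain ⟨v, hv, hv1⟩ := hb
    exact ⟨v, Finset.mem_filter.mpr ⟨hv, hv1⟩⟩
  have htn : (S.filter fun v => (mat p q r s v - c).1 = 1).Nonempty := by
    obtain ⟨v, hv, hv1⟩ := ht
    exact ⟨v, Finset.mem_filter.mpr ⟨hv, hv1⟩⟩
  obtain ⟨vb0, hvb0, hb0⟩ := Finset.exists_min_image _ (fun v => (mat p q r s v - c).2) hbn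
  obtain ⟨vb1, hvb1, hb1⟩ := Finset.exists_max_image _ (fun v => (mat p q r s v - c).2) hbn
  obtain ⟨vt0, hvt0, ht0⟩ := Finset.exists_min_image _ (fun v => (mat p q r s v - c).2) htn
  obtain ⟨vt1, hvt1, ht1⟩ := Finset.exists_max_image _ (fun v => (mat p q r s v - c).2) htn
  rw [Finset.mem_filter] at hvb0 hvb1 hvt0 hvt1
  simp only [Finset.mem_filter] at hb0 hb1 ht0 ht1
  set b0 := (mat p q r s vb0 - c).2 with hb0d
  set b1 := (mat p q r s vb1 - c).2 with hb1d
  set t0 := (mat p q r s vt0 - c).2 with ht0d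
  set t1 := (mat p q r s vt1 - c).2 with ht1d
  have hb01 : b0 ≤ b1 := hb0 vb1 hvb1
  have ht01 : t0 ≤ t1 := ht0 vt1 hvt1
  set j := t0 - b0 with hj
  by_cases hlen : t1 - t0 ≤ b1 - b0
  · -- the lower edge is longer
    obtain ⟨e, he⟩ := Int.eq_ofNat_of_zero_le (by linarith : 0 ≤ (b1 - b0) - (t1 - t0))
    have hcoord : ∀ v, mat p q (r - j * p) (s - j * q) v - (c.1, c.2 - j * c.1 + b0) =
        ((mat p q r s v - c).1, (mat p q r s v - c).2 - j * (mat p q r s v - c).1 - b0) := by
      intro v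
      ext <;> simp only [mat, Prod.fst_sub, Prod.snd_sub] <;> ring
    apply hscr p q (r - j * p) (s - j * q) e
    · have : p * (s - j * q) - q * (r - j * p) = p * s - q * r := by ring
      rw [this]
      exact hdet
    · apply add_trapezoid hS hS' p q (r - j * p) (s - j * q) (c.1, c.2 - j * c.1 + b0) e (b1 - b0)
      · linarith
      · refine ⟨vb0, hvb0.1, ?_⟩
        rw [hcoord, hvb0.2]
        ext
        · simp
        · simp only; linarith
      · refine ⟨vb1, hvb1.1, ?_⟩
        rw [hcoord, hvb1.2]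
        ext
        · simp
        · simp only; linarith
      · refine ⟨vt0, hvt0.1, ?_⟩
        rw [hcoord, hvt0.2]
        ext
        · simp
        · simp only; linarith
      · refine ⟨vt1, hvt1.1, ?_⟩
        rw [hcoord, hvt1.2]
        ext
        · simp
        · simp only; linarith
      · intro v hv
        rw [hcoord]
        simp only
        rcases (show (mat p q r s v - c).1 = 0 ∨ (mat p q r s v - c).1 = 1 by
          have := hin v hv; omega) with h | h
        · left
          rw [h]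
          refine ⟨rfl, ?_, ?_⟩
          · have := hb0 v ⟨hv, h⟩; linarith
          · have := hb1 v ⟨hv, h⟩; linarith
        · right
          rw [h]
          refine ⟨rfl, ?_, ?_⟩
          · have := ht0 v ⟨hv, h⟩; linarith
          · have := ht1 v ⟨hv, h⟩; linarith
  · -- the upper edge is longer
    push Not at hlen
    obtain ⟨e, he⟩ := Int.eq_ofNat_of_zero_le (by linarith : 0 ≤ (t1 - t0) - (b1 - b0))
    have hcoord : ∀ v, mat (-p) (-q) (r - j * p) (s - j * q) v - (-c.1 - 1, c.2 - j * c.1 + b0) =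
        (1 - (mat p q r s v - c).1, (mat p q r s v - c).2 - j * (mat p q r s v - c).1 - b0) := by
      intro v
      ext <;> simp only [mat, Prod.fst_sub, Prod.snd_sub] <;> ring
    apply hscr (-p) (-q) (r - j * p) (s - j * q) e
    · have : -p * (s - j * q) - -q * (r - j * p) = -(p * s - q * r) := by ring
      rw [this]
      rcases hdet with h | h
      · right; rw [h]
      · left; rw [h]; norm_num
    · apply add_trapezoid hS hS' (-p) (-q) (r - j * p) (s - j * q) (-c.1 - 1, c.2 - j * c.1 + b0) e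
        (t1 - t0)
      · linarith
      · refine ⟨vt0, hvt0.1, ?_⟩
        rw [hcoord, hvt0.2]
        ext
        · simp
        · simp only; linarith
      · refine ⟨vt1, hvt1.1, ?_⟩
        rw [hcoord, hvt1.2]
        ext
        · simp
        · simp only; linarith
      · refine ⟨vb0, hvb0.1, ?_⟩
        rw [hcoord, hvb0.2]
        ext
        · simp
        · simp only; linarith
      · refine ⟨vb1, hvb1.1, ?_⟩
        rw [hcoord, hvb1.2]
        ext
        · simp
        · simp only; linarith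
      · intro v hv
        rw [hcoord]
        simp only
        rcases (show (mat p q r s v - c).1 = 0 ∨ (mat p q r s v - c).1 = 1 by
          have := hin v hv; omega) with h | h
        · right
          rw [h]
          refine ⟨by norm_num, ?_, ?_⟩
          · have := hb0 v ⟨hv, h⟩; linarith
          · have := hb1 v ⟨hv, h⟩; linarith
        · left
          rw [h]
          refine ⟨by norm_num, ?_, ?_⟩
          · have := ht0 v ⟨hv, h⟩; linarith
          · have := ht1 v ⟨hv, h⟩; linarith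

theorem geometry (hne : S.Nonempty) (hS : ∀ v ∈ S, ∀ w, H w ≤ pair w v)
    (hS' : ∀ u, ∃ v ∈ S, pair u v = H u)
    (hfree : ∀ m : ℤ × ℤ, ∃ u : ℤ × ℤ, u ≠ 0 ∧ pair u m ≤ H u)
    (hscr : ∀ (p q r s : ℤ) (e : ℕ), (p * s - q * r = 1 ∨ p * s - q * r = -1) →
      AddScroll H p q r s e → G)
    (hpl : ∀ (p q r s : ℤ), (p * s - q * r = 1 ∨ p * s - q * r = -1) →
      AddPlane H p q r s → G) : G := by
  obtain ⟨p, q, r, s, c, hdet, hcase⟩ := s_POL S hne (by
    intro m
    obtain ⟨u, hu, hm⟩ := hfree m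
    exact ⟨u, hu, fun v hv => hm.trans (hS v hv u)⟩)
  rcases hcase with hcase | hcase
  · -- lattice width at most one
    refine strip hne hS hS' hscr r s p q (c.2, c.1) (Or.inr (by linarith)) ?_
    intro v hv
    have := hcase v hv
    simp only [mat, Prod.fst_sub, Prod.snd_sub] at this ⊢
    exact this
  · by_cases h02 : ∃ v ∈ S, mat p q r s v - c = (0, 2)
    swap
    · refine strip hne hS hS' hscr r s p q (c.2, c.1) (Or.inr (by linarith)) ?_
      intro v hv
      have h1 := hcase v hv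
      have h2 : (mat p q r s v - c).2 ≠ 2 := by
        intro h
        apply h02
        refine ⟨v, hv, ?_⟩
        ext
        · simp only; omega
        · exact h
      have h3 : 0 ≤ (mat p q r s v - c).2 ∧ (mat p q r s v - c).2 ≤ 1 := by omega
      simp only [mat, Prod.fst_sub, Prod.snd_sub] at h3 ⊢
      exact h3
    by_cases h20 : ∃ v ∈ S, mat p q r s v - c = (2, 0)
    swap
    · refine strip hne hS hS' hscr p q r s c (Or.inl hdet) ?_
      intro v hv
      have h1 := hcase v hv
      have h2 : (mat p q r s v - c).1 ≠ 2 := by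
        intro h
        apply h20
        refine ⟨v, hv, ?_⟩
        ext
        · exact h
        · simp only; omega
      omega
    by_cases h00 : ∃ v ∈ S, mat p q r s v - c = (0, 0)
    swap
    · refine strip hne hS hS' hscr (p + r) (q + s) r s (c.1 + c.2 + 1, c.2)
        (Or.inl (by linarith)) ?_
      intro v hv
      have h1 := hcase v hv
      have h2 : (mat p q r s v - c).1 + (mat p q r s v - c).2 ≠ 0 := by
        intro h
        apply h00
        refine ⟨v, hv, ?_⟩
        ext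
        · simp only; omega
        · simp only; omega
      have h3 : (mat (p + r) (q + s) r s v - (c.1 + c.2 + 1, c.2)).1 =
          (mat p q r s v - c).1 + (mat p q r s v - c).2 - 1 := by
        simp only [mat, Prod.fst_sub, Prod.snd_sub]
        ring
      rw [h3]
      omega
    exact hpl p q r s (Or.inl hdet) (add_triangle hS hS' p q r s c h00 h20 h02 hcase)

end

/-- the main theorem -/
theorem main_of (hmon : S_MON) (hsub : S_SUB) (hver : S_VER) : S_MAIN := by
  classical
  intro ι _ n _ f a P hf hunr hpg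
  -- the support function of the first polygon
  have hid : ∀ u, tr 1 0 0 1 u = u := by
    intro u
    ext <;> simp [tr]
  have hsys := sysOf hunr hpg 1 0 0 1 (Or.inl (by norm_num))
  have hHex : ∀ u : ℤ × ℤ, ∃ z : ℤ, (z : ℚ) = ∑ i, (((a i).val : ℚ) / n) * ((P i).low u : ℚ) := by
    intro u
    obtain ⟨z, hz⟩ := hsys.integral 1 u
    refine ⟨z, ?_⟩
    rw [hz]
    unfold wsum
    simp only [one_smul, hid]
  choose H hH using hHex
  have hver' := hver ι P (fun i => ((a i).val : ℚ) / n) H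
    (fun i => div_nonneg (Nat.cast_nonneg _) (Nat.cast_nonneg _)) hH
  obtain ⟨S, hSdef⟩ : ∃ S : Finset (ℤ × ℤ), ∀ v, v ∈ S ↔ ∀ w, H w ≤ pair w v := by
    refine ⟨(Finset.Icc (H (1, 0)) (-H (-1, 0)) ×ˢ Finset.Icc (H (0, 1)) (-H (0, -1))).filter
      (fun v => ∀ w, H w ≤ pair w v), fun v => ?_⟩
    rw [Finset.mem_filter, Finset.mem_product, Finset.mem_Icc, Finset.mem_Icc]
    constructor
    · exact fun h => h.2
    · intro h
      refine ⟨?_, h⟩
      have h1 := h (1, 0)
      have h2 := h (-1, 0)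
      have h3 := h (0, 1)
      have h4 := h (0, -1)
      simp only [pair] at h1 h2 h3 h4
      refine ⟨⟨?_, ?_⟩, ?_, ?_⟩ <;> linarith
  have hS : ∀ v ∈ S, ∀ w, H w ≤ pair w v := fun v hv => (hSdef v).mp hv
  have hS' : ∀ u, ∃ v ∈ S, pair u v = H u := by
    intro u
    obtain ⟨v, hv, hw⟩ := hver' u
    exact ⟨v, (hSdef v).mpr hw, hv⟩
  have hne : S.Nonempty := by
    obtain ⟨v, hv, _⟩ := hS' 0
    exact ⟨v, hv⟩
  have hfree : ∀ m : ℤ × ℤ, ∃ u : ℤ × ℤ, u ≠ 0 ∧ pair u m ≤ H u := by
    intro m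
    obtain ⟨u, hu, hle⟩ := hpg 1 m
    refine ⟨u, hu, ?_⟩
    simp only [one_smul] at hle
    rw [← hH] at hle
    exact_mod_cast hle
  have hw : ∀ (p q r s : ℤ) u, wsum n a (fun i u => (P i).low (tr p q r s u)) 1 u =
      (H (tr p q r s u) : ℚ) := by
    intro p q r s u
    rw [hH]
    unfold wsum
    simp only [one_smul]
  refine geometry hne hS hS' hfree ?_ ?_
  · intro p q r s e hdet hadd
    obtain ⟨g, hg0, hg, hdom⟩ := reduce (a := a) hmon hf hunr p q r s hdet
    apply hdom
    refine (sysOf hunr hpg p q r s hdet).scroll hsub e ?_ ?_ hg0 hg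
    · intro y x hx
      rw [hw, hw, hw]
      exact_mod_cast hadd.1 y x hx
    · intro z t ht
      rw [hw, hw, hw]
      exact_mod_cast hadd.2 z t ht
  · intro p q r s hdet hadd
    obtain ⟨g, hg0, hg, hdom⟩ := reduce (a := a) hmon hf hunr p q r s hdet
    apply hdom
    refine (sysOf hunr hpg p q r s hdet).plane hsub ?_ ?_ ?_ hg0 hg
    · intro y x hy hx
      rw [hw, hw, hw]
      exact_mod_cast hadd.1 y x hy hx
    · intro u t hu ht
      rw [hw, hw, hw]
      exact_mod_cast hadd.2.1 u t hu ht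
    · intro u t hu ht
      rw [hw, hw, hw]
      exact_mod_cast hadd.2.2 u t hu ht

end Pool.Agent.L7lead.TC
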