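import Pool.Agent.L7h69.Scr.Defs

/-!
# Covers of toric surfaces: definitions

* `pair u m`: the value of the linear function `u` at the point `m` of the plane.
* `LatticePolygon`: the convex hull of a finite nonempty set of points with integral coordinates in the plane
  (perhaps a segment or a point); `P.low u` is the minimum of the linear function `u` on `P`.
* `IsSection P f`: the polynomial `f ≠ 0` in two variables has all its exponents in `P`. If `P` is the polygon of
  the nef divisor `D` on a smooth projective toric surface, then `f` is the equation of an effective divisor in
  the class of `D` (and all effective divisors in this class are of this form).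
-/

set_option autoImplicit false

namespace Pool.Agent.L7lead.TC

open MvPolynomial

/-- the value of the linear function `u` at the point `m` -/
def pair (u m : ℤ × ℤ) : ℤ := u.1 * m.1 + u.2 * m.2

/-- a lattice polygon, the convex hull of the finite set `points` -/
structure LatticePolygon where
  points : Finset (ℤ × ℤ)
  nonempty : points.Nonempty

/-- the minimum of the linear function `u` on the polygon -/
noncomputable def LatticePolygon.low (P : LatticePolygon) (u : ℤ × ℤ) : ℤ :=
  P.points.inf' P.nonempty (pair u)

/-- the exponent of a monomial as a point of the plane -/
def expo (m : Fin 2 →₀ ℕ) : ℤ × ℤ := (m 0, m 1)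

/-- `f ≠ 0`, and the exponents of `f` are in the polygon `P` (on them all the linear functions are at least their
minimum on `P`) -/
structure IsSection (P : LatticePolygon) (f : MvPolynomial (Fin 2) ℂ) : Prop where
  ne_zero : f ≠ 0
  exponents : ∀ m ∈ f.support, ∀ u : ℤ × ℤ, P.low u ≤ pair u (expo m)

/-- the linear map with the matrix `(p, q; r, s)` -/
def mat (p q r s : ℤ) (m : ℤ × ℤ) : ℤ × ℤ := (p * m.1 + q * m.2, r * m.1 + s * m.2)

end Pool.Agent.L7lead.TC
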