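import Pool.Agent.L7lead.TC.Asm
import Pool.Agent.L7h47.TC.Mon
import Pool.Agent.L7h73.TC.Ver

/-!
# Covers of toric surfaces

The parts are by helper47 (`s_MON`, `s_SUB`) and helper73 (`s_VER`).
-/

set_option autoImplicit false

namespace Pool.Agent.L7lead.TC

theorem final : S_MAIN :=
  main_of Pool.Agent.L7h47.TC.s_MON Pool.Agent.L7h47.TC.s_SUB Pool.Agent.L7h73.TC.s_VER

end Pool.Agent.L7lead.TC
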