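import Pool.Agent.L7lead.TC.Stm
import Pool.Agent.L7h69.Scr.Main

/-!
# Support functions in normal form
-/

set_option autoImplicit false

namespace Pool.Agent.L7lead.TC

open MvPolynomial Pool.Agent.N197.Pln Pool.Agent.L7h69.Scr

/-- the support functions of the polygons, in some coordinates -/
structure Sys {ι : Type} [Fintype ι] (n : ℕ) (a : ι → ZMod n) (L : ι → ℤ × ℤ → ℤ) : Prop where
  super : ∀ i u w, L i u + L i w ≤ L i (u + w)
  homog : ∀ i (t : ℤ) u, 0 ≤ t → L i (t • u) = t * L i u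
  unr : ∀ u : ℤ × ℤ, ∑ i, (L i u : ZMod n) * a i = 0
  free : ∀ (k : ℤ) (m : ℤ × ℤ), ∃ u : ℤ × ℤ, u ≠ 0 ∧
    (pair u m : ℚ) ≤ ∑ i, (((k • a i).val : ℚ) / n) * (L i u : ℚ)

section

variable {ι : Type} [Fintype ι] {n : ℕ} [NeZero n] {a : ι → ZMod n} {L : ι → ℤ × ℤ → ℤ}

/-- the weighted sum -/
noncomputable def wsum (n : ℕ) (a : ι → ZMod n) (L : ι → ℤ × ℤ → ℤ) (k : ℤ) (u : ℤ × ℤ) : ℚ :=
  ∑ i, (((k • a i).val : ℚ) / n) * (L i u : ℚ)

theorem Sys.zero (h : Sys n a L) (i : ι) : L i 0 = 0 := by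
  have := h.homog i 0 0 le_rfl
  simpa using this

theorem Sys.integral (h : Sys n a L) (k : ℤ) (u : ℤ × ℤ) : ∃ z : ℤ, (z : ℚ) = wsum n a L k u := by
  have hn : (n : ℚ) ≠ 0 := Nat.cast_ne_zero.mpr (NeZero.ne n)
  have h1 : ((∑ i, ((k • a i).val : ℤ) * L i u : ℤ) : ZMod n) = 0 := by
    push_cast
    have h2 : ∀ i, (((k • a i).val : ℕ) : ZMod n) = k • a i := fun i => ZMod.natCast_zmod_val _
    simp only [h2]
    have h3 : ∀ i, k • a i * (L i u : ZMod n) = k • ((L i u : ZMod n) * a i) := by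
      intro i
      rw [smul_mul_assoc, mul_comm]
    simp only [h3]
    rw [← Finset.smul_sum, h.unr u, smul_zero]
  rw [ZMod.intCast_zmod_eq_zero_iff_dvd] at h1
  obtain ⟨z, hz⟩ := h1
  refine ⟨z, ?_⟩
  have h4 : ((∑ i, ((k • a i).val : ℤ) * L i u : ℤ) : ℚ) = n * z := by
    rw [hz]
    push_cast
    rfl
  unfold wsum
  have h5 : ∑ i, (((k • a i).val : ℚ) / n) * (L i u : ℚ) =
      ((∑ i, ((k • a i).val : ℤ) * L i u : ℤ) : ℚ) / n := by
    push_cast
    rw [Finset.sum_div]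
    apply Finset.sum_congr rfl
    intro i _
    ring
  rw [h5, h4]
  field_simp

/-- where the weighted sum is additive, the summands are additive -/
theorem Sys.additive (h : Sys n a L) {u w : ℤ × ℤ}
    (hadd : wsum n a L 1 (u + w) = wsum n a L 1 u + wsum n a L 1 w) {i : ι} (hi : a i ≠ 0) :
    L i (u + w) = L i u + L i w := by
  have hn : (0 : ℚ) < n := Nat.cast_pos.mpr (Nat.pos_of_ne_zero (NeZero.ne n))
  have h1 : ∑ i, (((a i).val : ℚ) / n) * ((L i (u + w) - L i u - L i w : ℤ) : ℚ) = 0 := by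
    unfold wsum at hadd
    simp only [one_smul] at hadd
    have : ∑ i, (((a i).val : ℚ) / n) * ((L i (u + w) - L i u - L i w : ℤ) : ℚ) =
        ∑ i, (((a i).val : ℚ) / n) * (L i (u + w) : ℚ) -
        (∑ i, (((a i).val : ℚ) / n) * (L i u : ℚ) + ∑ i, (((a i).val : ℚ) / n) * (L i w : ℚ)) := by
      rw [← Finset.sum_add_distrib, ← Finset.sum_sub_distrib]
      apply Finset.sum_congr rfl
      intro i _
      push_cast
      ring
    rw [this, hadd, sub_self]
  have hnn : ∀ j ∈ Finset.univ, 0 ≤ (((a j).val : ℚ) / n) * ((L j (u + w) - L j u - L j w : ℤ) : ℚ) := by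
    intro j _
    apply mul_nonneg
    · exact div_nonneg (Nat.cast_nonneg _) hn.le
    · have := h.super j u w
      exact_mod_cast (by linarith : 0 ≤ L j (u + w) - L j u - L j w)
  have h2 := (Finset.sum_eq_zero_iff_of_nonneg hnn).mp h1 i (Finset.mem_univ i)
  have h3 : (((a i).val : ℚ) / n) ≠ 0 := by
    apply div_ne_zero _ hn.ne'
    rw [Nat.cast_ne_zero]
    intro h0
    exact hi ((ZMod.val_eq_zero _).mp h0)
  rcases mul_eq_zero.mp h2 with h4 | h4
  · exact absurd h4 h3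
  · have h5 : L i (u + w) - L i u - L i w = 0 := by exact_mod_cast h4
    linarith

theorem wsum_congr {k : ℤ} {u : ℤ × ℤ} {M : ι → ℚ} (h : ∀ i, a i ≠ 0 → (L i u : ℚ) = M i) :
    wsum n a L k u = ∑ i, (((k • a i).val : ℚ) / n) * M i := by
  unfold wsum
  apply Finset.sum_congr rfl
  intro i _
  by_cases hi : a i = 0
  · simp [hi]
  · rw [h i hi]

/-- the degree on the fibres -/
noncomputable def dd (L : ι → ℤ × ℤ → ℤ) (i : ι) : ℕ := (-(L i (1, 0)) - L i (-1, 0)).toNat

/-- the degree on the base -/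
noncomputable def bb (e : ℕ) (L : ι → ℤ × ℤ → ℤ) (i : ι) : ℕ :=
  (-(L i (-e, -1)) - L i (0, 1) - e * L i (1, 0)).toNat

theorem Sys.dd_eq (h : Sys n a L) (i : ι) : (dd L i : ℤ) = -(L i (1, 0)) - L i (-1, 0) := by
  unfold dd
  rw [Int.toNat_of_nonneg]
  have := h.super i (1, 0) (-1, 0)
  simp only [Prod.mk_add_mk, add_neg_cancel, add_zero] at this
  have h0 := h.zero i
  rw [← Prod.mk_zero_zero] at h0
  rw [h0] at this
  linarith

theorem Sys.bb_eq (h : Sys n a L) (e : ℕ) (i : ι) :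
    (bb e L i : ℤ) = -(L i (-e, -1)) - L i (0, 1) - e * L i (1, 0) := by
  unfold bb
  rw [Int.toNat_of_nonneg]
  have h1 := h.super i (-e, -1) ((e : ℤ) • (1, 0))
  rw [h.homog i _ _ (Int.natCast_nonneg e)] at h1
  have h2 := h.super i ((-(e : ℤ), -1) + (e : ℤ) • (1, 0)) (0, 1)
  have h3 : (((-e : ℤ), (-1 : ℤ)) + (e : ℤ) • ((1 : ℤ), (0 : ℤ)) + ((0 : ℤ), (1 : ℤ))) = 0 := by
    ext <;> simp
  rw [h3, h.zero i] at h2
  linarith

theorem Sys.no_section (h : Sys n a L) (e : ℕ) (i : ι) : e * dd L i ≤ bb e L i := by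
  have h1 := h.dd_eq i
  have h2 := h.bb_eq e i
  have h3 := h.super i (-e, -1) (0, 1)
  have h4 : (((-e : ℤ), (-1 : ℤ)) + ((0 : ℤ), (1 : ℤ))) = (e : ℤ) • ((-1 : ℤ), (0 : ℤ)) := by
    ext <;> simp
  rw [h4, h.homog i _ _ (Int.natCast_nonneg e)] at h3
  zify
  rw [h1, h2]
  nlinarith

theorem lineDegree_eq (d : ι → ℕ) (k : ℤ) :
    lineDegree n d (fun i => k • a i) = ∑ i, (((k • a i).val : ℚ) / n) * (d i : ℚ) := by
  unfold lineDegree
  apply Finset.sum_congr rfl
  intro i _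
  ring

/-- the numerical conditions, scrolls -/
theorem Sys.scroll_cond (h : Sys n a L) (e : ℕ)
    (add1 : ∀ y x : ℤ, 0 ≤ x → wsum n a L 1 (y, x) = wsum n a L 1 (y, 0) + wsum n a L 1 (0, x))
    (add2 : ∀ z t : ℤ, 0 ≤ t → wsum n a L 1 (z - t * e, -t) =
      wsum n a L 1 (z, 0) + wsum n a L 1 (-(t * e), -t)) (k : ℤ) :
    lineDegree n (dd L) (fun i => k • a i) ≤ 1 ∨ lineDegree n (bb e L) (fun i => k • a i) ≤ e + 1 := by
  by_contra hcon
  push Not at hcon
  obtain ⟨hD, hB⟩ := hcon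
  rw [lineDegree_eq] at hD hB
  set D : ℚ := ∑ i, (((k • a i).val : ℚ) / n) * (dd L i : ℚ) with hDdef
  set B : ℚ := ∑ i, (((k • a i).val : ℚ) / n) * (bb e L i : ℚ) with hBdef
  obtain ⟨g1, hg1⟩ := h.integral k (1, 0)
  obtain ⟨g2, hg2⟩ := h.integral k (0, 1)
  have G1 : (g1 : ℚ) = ∑ i, (((k • a i).val : ℚ) / n) * (L i (1, 0) : ℚ) := hg1
  have G2 : (g2 : ℚ) = ∑ i, (((k • a i).val : ℚ) / n) * (L i (0, 1) : ℚ) := hg2
  obtain ⟨⟨y, x⟩, hu, hle⟩ := h.free k (1 + g1, 1 + g2)
  change ((pair (y, x) (1 + g1, 1 + g2) : ℤ) : ℚ) ≤ wsum n a L k (y, x) at hle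
  have hpair : ((pair (y, x) (1 + g1, 1 + g2) : ℤ) : ℚ) = y + x + y * g1 + x * g2 := by
    simp only [pair]
    push_cast
    ring
  rw [hpair] at hle
  -- values of the support functions on the axis
  have hdd : ∀ i, ((dd L i : ℕ) : ℚ) = -(L i (1, 0) : ℚ) - (L i (-1, 0) : ℚ) := by
    intro i
    have := h.dd_eq i
    exact_mod_cast this
  have hbb : ∀ i, ((bb e L i : ℕ) : ℚ) =
      -(L i (-e, -1) : ℚ) - (L i (0, 1) : ℚ) - e * (L i (1, 0) : ℚ) := by
    intro i
    have := h.bb_eq e i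
    exact_mod_cast this
  have ax : ∀ i (z : ℤ), (L i (z, 0) : ℚ) = z * (L i (1, 0) : ℚ) +
      (if z ≤ 0 then (z : ℚ) else 0) * (dd L i : ℚ) := by
    intro i z
    split_ifs with hz
    · have h1 := h.homog i (-z) (-1, 0) (by linarith)
      have h2 : (-z) • ((-1 : ℤ), (0 : ℤ)) = (z, 0) := by ext <;> simp
      rw [h2] at h1
      rw [h1, hdd]
      push_cast
      ring
    · push Not at hz
      have h1 := h.homog i z (1, 0) hz.le
      have h2 : z • ((1 : ℤ), (0 : ℤ)) = (z, 0) := by ext <;> simp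
      rw [h2] at h1
      rw [h1]
      push_cast
      ring
  rcases le_or_gt 0 x with hx | hx
  · -- upper half plane
    have key : ∀ i, a i ≠ 0 → (L i (y, x) : ℚ) = y * (L i (1, 0) : ℚ) +
        (if y ≤ 0 then (y : ℚ) else 0) * (dd L i : ℚ) + x * (L i (0, 1) : ℚ) := by
      intro i hi
      have e1 := add1 y x hx
      have e2 : ((y, 0) : ℤ × ℤ) + (0, x) = (y, x) := by ext <;> simp
      rw [← e2] at e1
      have e3 := h.additive e1 hi
      rw [e2] at e3
      have e4 := h.homog i x (0, 1) hx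
      have e5 : x • ((0 : ℤ), (1 : ℤ)) = (0, x) := by ext <;> simp
      rw [e5] at e4
      rw [e3]
      push_cast
      rw [ax, e4]
      push_cast
      ring
    rw [wsum_congr key] at hle
    have e6 : ∑ i, (((k • a i).val : ℚ) / n) * (y * (L i (1, 0) : ℚ) +
        (if y ≤ 0 then (y : ℚ) else 0) * (dd L i : ℚ) + x * (L i (0, 1) : ℚ)) =
        y * g1 + (if y ≤ 0 then (y : ℚ) else 0) * D + x * g2 := by
      rw [G1, G2, hDdef, Finset.mul_sum, Finset.mul_sum, Finset.mul_sum, ← Finset.sum_add_distrib,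
        ← Finset.sum_add_distrib]
      apply Finset.sum_congr rfl
      intro i _
      ring
    rw [e6] at hle
    have hxQ : (0 : ℚ) ≤ x := by exact_mod_cast hx
    split_ifs at hle with hy
    · have hyQ : (y : ℚ) ≤ 0 := by exact_mod_cast hy
      have h1 : (x : ℚ) + (-y) * (D - 1) ≤ 0 := by linarith
      have h2 : 0 ≤ (-(y : ℚ)) * (D - 1) := mul_nonneg (by linarith) (by linarith)
      have h3 : (x : ℚ) = 0 := by linarith
      have h4 : (-(y : ℚ)) * (D - 1) = 0 := by linarith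
      have h5 : (y : ℚ) = 0 := by
        rcases mul_eq_zero.mp h4 with h | h
        · linarith
        · linarith
      exact hu (Prod.ext (by exact_mod_cast h5) (by exact_mod_cast h3))
    · push Not at hy
      have hyQ : (0 : ℚ) < y := by exact_mod_cast hy
      linarith
  · -- lower half plane
    have key : ∀ i, a i ≠ 0 → (L i (y, x) : ℚ) = (-x) * (L i (-e, -1) : ℚ) +
        (y - x * e) * (L i (1, 0) : ℚ) + (if y - x * e ≤ 0 then (y - x * e : ℚ) else 0) * (dd L i : ℚ) := by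
      intro i hi
      have e1 := add2 (y - x * e) (-x) (by linarith)
      have e2 : ((y - x * e, 0) : ℤ × ℤ) + (-(-x * e), - -x) = (y - x * e - -x * e, - -x) := by
        ext <;> simp
        
      have e2' : ((y - x * e - -x * e, - -x) : ℤ × ℤ) = (y, x) := by ext <;> simp
      rw [← e2] at e1
      have e3 := h.additive e1 hi
      rw [e2, e2'] at e3
      have e4 := h.homog i (-x) (-e, -1) (by linarith)
      have e5 : (-x) • ((-e : ℤ), (-1 : ℤ)) = (-(-x * e), - -x) := by ext <;> simp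
      rw [e5] at e4
      rw [e3]
      push_cast
      rw [ax, e4]
      push_cast
      have e6 : (y - x * (e : ℤ) ≤ 0) ↔ ((y : ℤ) - x * e ≤ 0) := Iff.rfl
      split_ifs <;> ring
    rw [wsum_congr key] at hle
    have e6 : ∑ i, (((k • a i).val : ℚ) / n) * ((-x) * (L i (-e, -1) : ℚ) +
        (y - x * e) * (L i (1, 0) : ℚ) +
          (if y - x * e ≤ 0 then (y - x * e : ℚ) else 0) * (dd L i : ℚ)) =
        x * B + x * g2 + y * g1 + (if y - x * e ≤ 0 then (y - x * e : ℚ) else 0) * D := by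
      rw [G1, G2, hDdef, hBdef, Finset.mul_sum, Finset.mul_sum, Finset.mul_sum, Finset.mul_sum,
        ← Finset.sum_add_distrib, ← Finset.sum_add_distrib, ← Finset.sum_add_distrib]
      apply Finset.sum_congr rfl
      intro i _
      rw [hbb]
      ring
    rw [e6] at hle
    have hxQ : (x : ℚ) < 0 := by exact_mod_cast hx
    split_ifs at hle with hy
    · have hyQ : (y : ℚ) - x * e ≤ 0 := by exact_mod_cast hy
      have h1 : 0 ≤ (-((y : ℚ) - x * e)) * (D - 1) := mul_nonneg (by linarith) (by linarith)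
      have h2 : 0 < (-(x : ℚ)) * (B - (e + 1)) := mul_pos (by linarith) (by linarith)
      linarith
    · push Not at hy
      have hyQ : (0 : ℚ) < (y : ℚ) - x * e := by exact_mod_cast hy
      have h2 : 0 < (-(x : ℚ)) * (B - (e + 1)) := mul_pos (by linarith) (by linarith)
      linarith

/-- the numerical conditions, plane -/
theorem Sys.plane_cond (h : Sys n a L)
    (addA : ∀ y x : ℤ, 0 ≤ y → 0 ≤ x → wsum n a L 1 (y, x) = wsum n a L 1 (y, 0) + wsum n a L 1 (0, x))
    (addC : ∀ s t : ℤ, 0 ≤ s → 0 ≤ t → wsum n a L 1 (s - t, -t) =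
      wsum n a L 1 (s, 0) + wsum n a L 1 (-t, -t))
    (addC' : ∀ s t : ℤ, 0 ≤ s → 0 ≤ t → wsum n a L 1 (-t, s - t) =
      wsum n a L 1 (0, s) + wsum n a L 1 (-t, -t)) (k : ℤ) :
    lineDegree n (bb 1 L) (fun i => k • a i) ≤ 2 := by
  by_contra hcon
  push Not at hcon
  have hB := hcon
  rw [lineDegree_eq] at hB
  set B : ℚ := ∑ i, (((k • a i).val : ℚ) / n) * (bb 1 L i : ℚ) with hBdef
  obtain ⟨g1, hg1⟩ := h.integral k (1, 0)
  obtain ⟨g2, hg2⟩ := h.integral k (0, 1)
  have G1 : (g1 : ℚ) = ∑ i, (((k • a i).val : ℚ) / n) * (L i (1, 0) : ℚ) := hg1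
  have G2 : (g2 : ℚ) = ∑ i, (((k • a i).val : ℚ) / n) * (L i (0, 1) : ℚ) := hg2
  obtain ⟨⟨y, x⟩, hu, hle⟩ := h.free k (1 + g1, 1 + g2)
  change ((pair (y, x) (1 + g1, 1 + g2) : ℤ) : ℚ) ≤ wsum n a L k (y, x) at hle
  have hpair : ((pair (y, x) (1 + g1, 1 + g2) : ℤ) : ℚ) = y + x + y * g1 + x * g2 := by
    simp only [pair]
    push_cast
    ring
  rw [hpair] at hle
  have hbb : ∀ i, ((bb 1 L i : ℕ) : ℚ) =
      -(L i (-1, -1) : ℚ) - (L i (0, 1) : ℚ) - (L i (1, 0) : ℚ) := by
    intro i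
    have := h.bb_eq 1 i
    simp only [Nat.cast_one, one_mul] at this
    exact_mod_cast this
  have ax1 : ∀ i (z : ℤ), 0 ≤ z → (L i (z, 0) : ℚ) = z * (L i (1, 0) : ℚ) := by
    intro i z hz
    have h1 := h.homog i z (1, 0) hz
    have h2 : z • ((1 : ℤ), (0 : ℤ)) = (z, 0) := by ext <;> simp
    rw [h2] at h1
    rw [h1]
    push_cast
    ring
  have ax2 : ∀ i (z : ℤ), 0 ≤ z → (L i (0, z) : ℚ) = z * (L i (0, 1) : ℚ) := by
    intro i z hz
    have h1 := h.homog i z (0, 1) hz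
    have h2 : z • ((0 : ℤ), (1 : ℤ)) = (0, z) := by ext <;> simp
    rw [h2] at h1
    rw [h1]
    push_cast
    ring
  have ax3 : ∀ i (z : ℤ), 0 ≤ z → (L i (-z, -z) : ℚ) = z * (L i (-1, -1) : ℚ) := by
    intro i z hz
    have h1 := h.homog i z (-1, -1) hz
    have h2 : z • ((-1 : ℤ), (-1 : ℤ)) = (-z, -z) := by ext <;> simp
    rw [h2] at h1
    rw [h1]
    push_cast
    ring
  by_cases hA : 0 ≤ y ∧ 0 ≤ x
  · obtain ⟨hy, hx⟩ := hA
    have key : ∀ i, a i ≠ 0 → (L i (y, x) : ℚ) = y * (L i (1, 0) : ℚ) + x * (L i (0, 1) : ℚ) := by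
      intro i hi
      have e1 := addA y x hy hx
      have e2 : ((y, 0) : ℤ × ℤ) + (0, x) = (y, x) := by ext <;> simp
      rw [← e2] at e1
      have e3 := h.additive e1 hi
      rw [e2] at e3
      rw [e3]
      push_cast
      rw [ax1 i y hy, ax2 i x hx]
    rw [wsum_congr key] at hle
    have e6 : ∑ i, (((k • a i).val : ℚ) / n) * (y * (L i (1, 0) : ℚ) + x * (L i (0, 1) : ℚ)) =
        y * g1 + x * g2 := by
      rw [G1, G2, Finset.mul_sum, Finset.mul_sum, ← Finset.sum_add_distrib]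
      apply Finset.sum_congr rfl
      intro i _
      ring
    rw [e6] at hle
    have hxQ : (0 : ℚ) ≤ x := by exact_mod_cast hx
    have hyQ : (0 : ℚ) ≤ y := by exact_mod_cast hy
    have h3 : (x : ℚ) = 0 := by linarith
    have h5 : (y : ℚ) = 0 := by linarith
    exact hu (Prod.ext (by exact_mod_cast h5) (by exact_mod_cast h3))
  · -- the two cones at `(-1, -1)`
    obtain ⟨t, ht, hval⟩ : ∃ t : ℤ, 0 < t ∧ (0 ≤ y + t ∧ 0 ≤ x + t) ∧ ∀ i, a i ≠ 0 → (L i (y, x) : ℚ) =
        (y + t) * (L i (1, 0) : ℚ) + (x + t) * (L i (0, 1) : ℚ) + t * (L i (-1, -1) : ℚ) := by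
      rcases le_total x y with hxy | hxy
      · have hx : x < 0 := by
          by_contra hc
          push Not at hc
          exact hA ⟨le_trans hc hxy, hc⟩
        refine ⟨-x, by linarith, ⟨by linarith, by linarith⟩, ?_⟩
        intro i hi
        have e1 := addC (y - x) (-x) (by linarith) (by linarith)
        have e2 : ((y - x, 0) : ℤ × ℤ) + (- -x, - -x) = (y - x - -x, - -x) := by ext <;> simp
        have e2' : ((y - x - -x, - -x) : ℤ × ℤ) = (y, x) := by ext <;> simp
        rw [← e2] at e1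
        have e3 := h.additive e1 hi
        rw [e2, e2'] at e3
        rw [e3]
        push_cast
        rw [ax1 i (y - x) (by linarith)]
        have := ax3 i (-x) (by linarith)
        push_cast at this ⊢
        rw [this]
        ring
      · have hy : y < 0 := by
          by_contra hc
          push Not at hc
          exact hA ⟨hc, le_trans hc hxy⟩
        refine ⟨-y, by linarith, ⟨by linarith, by linarith⟩, ?_⟩
        intro i hi
        have e1 := addC' (x - y) (-y) (by linarith) (by linarith)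
        have e2 : ((0, x - y) : ℤ × ℤ) + (- -y, - -y) = (- -y, x - y - -y) := by ext <;> simp
        have e2' : ((- -y, x - y - -y) : ℤ × ℤ) = (y, x) := by ext <;> simp
        rw [← e2] at e1
        have e3 := h.additive e1 hi
        rw [e2, e2'] at e3
        rw [e3]
        push_cast
        rw [ax2 i (x - y) (by linarith)]
        have := ax3 i (-y) (by linarith)
        push_cast at this ⊢
        rw [this]
        ring
    obtain ⟨⟨hyt, hxt⟩, key⟩ := hval
    rw [wsum_congr key] at hle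
    have e6 : ∑ i, (((k • a i).val : ℚ) / n) * ((y + t) * (L i (1, 0) : ℚ) +
        (x + t) * (L i (0, 1) : ℚ) + t * (L i (-1, -1) : ℚ)) =
        y * g1 + x * g2 - t * B := by
      rw [G1, G2, hBdef, Finset.mul_sum, Finset.mul_sum, Finset.mul_sum,
        ← Finset.sum_add_distrib, ← Finset.sum_sub_distrib]
      apply Finset.sum_congr rfl
      intro i _
      rw [hbb]
      ring
    rw [e6] at hle
    have htQ : (0 : ℚ) < t := by exact_mod_cast ht
    have hxQ : (0 : ℚ) ≤ x + t := by exact_mod_cast hxt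
    have hyQ : (0 : ℚ) ≤ y + t := by exact_mod_cast hyt
    have h2 : 0 < (t : ℚ) * (B - 2) := mul_pos htQ (by linarith)
    linarith

theorem const_of_support {g : MvPolynomial (Fin 2) ℂ} (h0 : g ≠ 0)
    (h : ∀ m ∈ g.support, m 0 = 0 ∧ m 1 = 0) : ∃ c : ℂ, c ≠ 0 ∧ g = C c := by
  have h1 : g = C (coeff 0 g) := by
    ext m
    rw [coeff_C]
    split_ifs with hm
    · rw [← hm]
    · by_contra hc
      have := h m (mem_support_iff.mpr hc)
      apply hm
      ext i
      fin_cases i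
      · exact this.1.symm
      · exact this.2.symm
  refine ⟨coeff 0 g, ?_, h1⟩
  intro hc
  rw [hc, C_0] at h1
  exact h0 h1

/-- covers of scrolls, with units among the equations -/
theorem scroll_of (hsub : S_SUB) {e : ℕ} (he : 1 ≤ e) {g : ι → MvPolynomial (Fin 2) ℂ} {d b : ι → ℕ}
    (hg0 : ∀ i, g i ≠ 0) (hmon : ∀ i, ∀ m ∈ (g i).support, m 0 ≤ d i ∧ m 1 + e * m 0 ≤ b i)
    (hns : ∀ i, e * d i ≤ b i) (hd : ∑ i, d i • a i = 0) (hb : ∑ i, b i • a i = 0)
    (h1 : lineDegree n d a ≤ 1 ∨ lineDegree n b a ≤ e + 1)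
    (h2 : lineDegree n d (fun i => -(a i)) ≤ 1 ∨ lineDegree n b (fun i => -(a i)) ≤ e + 1) :
    AffineDominatedByCurves n g a := by
  classical
  have hbd : ∀ i, ¬ 0 < b i → d i = 0 := by
    intro i hi
    have := hns i
    have h0 : b i = 0 := by omega
    rw [h0] at this
    rcases Nat.mul_eq_zero.mp (Nat.le_zero.mp this) with h | h
    · omega
    · exact h
  apply hsub ι n g a (fun i => 0 < b i)
  · intro i hi
    right
    apply const_of_support (hg0 i)
    intro m hm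
    have h3 := hmon i m hm
    have h4 := hbd i hi
    constructor
    · omega
    · omega
  have sub1 : ∀ {M : Type} [AddCommMonoid M] (w : ι → M), (∀ i, ¬ 0 < b i → w i = 0) →
      ∑ i : {i // 0 < b i}, w i = ∑ i, w i := by
    intro M _ w hw
    rw [← Finset.sum_subtype (Finset.univ.filter fun i => 0 < b i) (by simp) w]
    apply Finset.sum_filter_of_ne
    intro i _ hne
    by_contra hc
    exact hne (hw i hc)
  have ld : ∀ (w : ι → ZMod n) (d' : ι → ℕ), (∀ i, ¬ 0 < b i → d' i = 0) →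
      lineDegree n (fun i : {i // 0 < b i} => d' i) (fun i => w i) = lineDegree n d' w := by
    intro w d' hd'
    unfold lineDegree
    exact sub1 (fun i => (d' i : ℚ) * ((w i).val : ℚ) / (n : ℚ)) (fun i hi => by rw [hd' i hi]; simp)
  have hb0 : ∀ i, ¬ 0 < b i → b i = 0 := fun i hi => by omega
  refine main he (f := fun i : {i // 0 < b i} => g i) (d := fun i => d i) (b := fun i => b i)
    (fun i => ⟨hg0 i, i.2, hns i, hmon i⟩) (a := fun i => a i) (a₀ := 0) ?_ ?_ ?_ ?_ ?_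
  · rw [add_zero, sub1 (fun i => d i • a i) (fun i hi => by rw [hbd i hi]; simp)]
    exact hd
  · rw [sub1 (fun i => b i • a i) (fun i hi => by rw [hb0 i hi]; simp)]
    exact hb
  · rw [ld a d hbd, ld a b hb0, ZMod.val_zero]
    simpa using h1
  · rw [ld (fun i => -(a i)) d hbd, ld (fun i => -(a i)) b hb0, neg_zero, ZMod.val_zero]
    simpa using h2
  · simp

theorem Sys.sum_dd (h : Sys n a L) : ∑ i, dd L i • a i = 0 := by
  have h1 : ∀ i, dd L i • a i = -((L i (1, 0) : ZMod n) * a i) - (L i (-1, 0) : ZMod n) * a i := by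
    intro i
    have h2 : ((dd L i : ℕ) : ZMod n) = -(L i (1, 0) : ZMod n) - (L i (-1, 0) : ZMod n) := by
      have := congrArg (Int.cast : ℤ → ZMod n) (h.dd_eq i)
      push_cast at this
      exact this
    rw [nsmul_eq_mul, h2]
    ring
  simp only [h1]
  rw [Finset.sum_sub_distrib, Finset.sum_neg_distrib, h.unr, h.unr]
  simp

theorem Sys.sum_bb (h : Sys n a L) (e : ℕ) : ∑ i, bb e L i • a i = 0 := by
  have h1 : ∀ i, bb e L i • a i = -((L i (-e, -1) : ZMod n) * a i) - (L i (0, 1) : ZMod n) * a i -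
      e * ((L i (1, 0) : ZMod n) * a i) := by
    intro i
    have h2 : ((bb e L i : ℕ) : ZMod n) = -(L i (-e, -1) : ZMod n) - (L i (0, 1) : ZMod n) -
        e * (L i (1, 0) : ZMod n) := by
      have := congrArg (Int.cast : ℤ → ZMod n) (h.bb_eq e i)
      push_cast at this
      exact this
    rw [nsmul_eq_mul, h2]
    ring
  simp only [h1]
  rw [Finset.sum_sub_distrib, Finset.sum_sub_distrib, Finset.sum_neg_distrib, ← Finset.mul_sum,
    h.unr, h.unr, h.unr]
  simp

theorem Sys.mono_bound (h : Sys n a L) {g : ι → MvPolynomial (Fin 2) ℂ}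
    (hg : ∀ i, ∀ m ∈ (g i).support, ∀ u, L i u ≤ pair u (expo m + (L i (1, 0), L i (0, 1)))) (e : ℕ)
    (i : ι) (m : Fin 2 →₀ ℕ) (hm : m ∈ (g i).support) : m 0 ≤ dd L i ∧ m 1 + e * m 0 ≤ bb e L i := by
  have h1 := hg i m hm (-1, 0)
  have h2 := hg i m hm (-e, -1)
  have h3 := h.dd_eq i
  have h4 := h.bb_eq e i
  simp only [pair, expo, Prod.fst_add, Prod.snd_add] at h1 h2
  constructor
  · zify
    rw [h3]
    linarith
  · zify
    rw [h4]
    linarith

/-- the normal form for scrolls -/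
theorem Sys.scroll (h : Sys n a L) (hsub : S_SUB) (e : ℕ)
    (add1 : ∀ y x : ℤ, 0 ≤ x → wsum n a L 1 (y, x) = wsum n a L 1 (y, 0) + wsum n a L 1 (0, x))
    (add2 : ∀ z t : ℤ, 0 ≤ t → wsum n a L 1 (z - t * e, -t) =
      wsum n a L 1 (z, 0) + wsum n a L 1 (-(t * e), -t)) {g : ι → MvPolynomial (Fin 2) ℂ}
    (hg0 : ∀ i, g i ≠ 0)
    (hg : ∀ i, ∀ m ∈ (g i).support, ∀ u, L i u ≤ pair u (expo m + (L i (1, 0), L i (0, 1)))) :
    AffineDominatedByCurves n g a := by
  have hc := h.scroll_cond e add1 add2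
  rcases Nat.eq_zero_or_pos e with rfl | he
  · refine affine_dominated (d := dd L) (e := bb 0 L) (fun i => ⟨hg0 i, ?_, ?_⟩) h.sum_dd (h.sum_bb 0)
      (fun k => ?_) (fun k => ?_)
    · rw [degreeOf_le_iff]
      exact fun m hm => (h.mono_bound hg 0 i m hm).1
    · rw [degreeOf_le_iff]
      intro m hm
      have := (h.mono_bound hg 0 i m hm).2
      omega
    · have := hc k
      simpa using this
    · have := hc (-k)
      simpa using this
  · have c1 := hc 1
    have c2 := hc (-1)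
    simp only [one_smul, neg_smul] at c1 c2
    exact scroll_of hsub he hg0 (fun i m hm => h.mono_bound hg e i m hm) (fun i => h.no_section e i)
      h.sum_dd (h.sum_bb e) c1 c2

/-- the normal form for the plane -/
theorem Sys.plane (h : Sys n a L) (hsub : S_SUB)
    (addA : ∀ y x : ℤ, 0 ≤ y → 0 ≤ x → wsum n a L 1 (y, x) = wsum n a L 1 (y, 0) + wsum n a L 1 (0, x))
    (addC : ∀ s t : ℤ, 0 ≤ s → 0 ≤ t → wsum n a L 1 (s - t, -t) =
      wsum n a L 1 (s, 0) + wsum n a L 1 (-t, -t))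
    (addC' : ∀ s t : ℤ, 0 ≤ s → 0 ≤ t → wsum n a L 1 (-t, s - t) =
      wsum n a L 1 (0, s) + wsum n a L 1 (-t, -t)) {g : ι → MvPolynomial (Fin 2) ℂ}
    (hg0 : ∀ i, g i ≠ 0)
    (hg : ∀ i, ∀ m ∈ (g i).support, ∀ u, L i u ≤ pair u (expo m + (L i (1, 0), L i (0, 1)))) :
    AffineDominatedByCurves n g a := by
  have hc := h.plane_cond addA addC addC'
  have c1 := hc 1
  have c2 := hc (-1)
  simp only [one_smul, neg_smul] at c1 c2
  refine scroll_of hsub le_rfl (d := bb 1 L) (b := bb 1 L) hg0 (fun i m hm => ?_) (fun i => by omega)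
    (h.sum_bb 1) (h.sum_bb 1) (Or.inr ?_) (Or.inr ?_)
  · have := (h.mono_bound hg 1 i m hm).2
    constructor
    · omega
    · exact this
  · norm_num
    exact c1
  · norm_num
    exact c2

end

end Pool.Agent.L7lead.TC
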