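import Pool.Agent.L7lead.TC.Defs

/-!
# Project TC: the parts
-/

set_option autoImplicit false

namespace Pool.Agent.L7lead.TC

open MvPolynomial Pool.Agent.N197.Pln

/-- MON, monomial change of coordinates. `f i (x, y) = X ^ (c i).1 Y ^ (c i).2 (g i) (X, Y)` for
`x = X ^ p Y ^ r`, `y = X ^ q Y ^ s` (integral exponents, `zpow`). Take
`g i = ∑ m ∈ (f i).support, monomial (toNat of mat p q r s (expo m) - c i) (coeff m (f i))`. The elements `x, y` are
algebraically independent since a relation would give one for `X, Y`. Put `z = X ^ A Y ^ B Z` with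
`n A = ∑ (a i).val (c i).1`, `n B = ∑ (a i).val (c i).2`. -/
def S_MON : Prop :=
  ∀ (ι : Type) [Fintype ι] (n : ℕ) [NeZero n] (f : ι → MvPolynomial (Fin 2) ℂ) (a : ι → ZMod n)
    (p q r s : ℤ) (c : ι → ℤ × ℤ), (∀ i, f i ≠ 0) → (p * s - q * r = 1 ∨ p * s - q * r = -1) →
    (∀ i, ∀ m ∈ (f i).support, (c i).1 ≤ (mat p q r s (expo m)).1 ∧ (c i).2 ≤ (mat p q r s (expo m)).2) →
    (∑ i, ((c i).1 : ZMod n) * a i = 0) → (∑ i, ((c i).2 : ZMod n) * a i = 0) →
    ∃ g : ι → MvPolynomial (Fin 2) ℂ, (∀ i, g i ≠ 0) ∧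
      (∀ i, ∀ m' ∈ (g i).support, ∃ m ∈ (f i).support, expo m' + c i = mat p q r s (expo m)) ∧
      (AffineDominatedByCurves n g a → AffineDominatedByCurves n f a)

/-- SUB, curves that do not matter: the factors with `a i = 0` and the constant factors. -/
def S_SUB : Prop :=
  ∀ (ι : Type) [Fintype ι] (n : ℕ) [NeZero n] (f : ι → MvPolynomial (Fin 2) ℂ) (a : ι → ZMod n)
    (p : ι → Prop) [DecidablePred p],
    (∀ i, ¬ p i → a i = 0 ∨ ∃ c : ℂ, c ≠ 0 ∧ f i = C c) →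
    AffineDominatedByCurves n (fun i : {i // p i} => f i) (fun i => a i) →
    AffineDominatedByCurves n f a

/-- VER, vertices. If `∑ α i P i` (`α i ≥ 0` rational) has integral support numbers `H u` for all integral `u`
then it is a lattice polygon: each face contains an integral point. Let `v i` be the lexicographic minimum of
`(pair u m, m.1, m.2)` on the points `m` of `P i` and `v = ∑ α i (v i)`, a rational point. For large `N` the point `v i`
minimizes the linear functions `N² u + N e₁ + e₂`, `N² u + N e₁ + 2 e₂` and `N² u + (N + 1) e₁ + e₂` on `P i`, so these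
take integral values `H` at `v`, and so do `e₂` and `e₁`. -/
def S_VER : Prop :=
  ∀ (ι : Type) [Fintype ι] (P : ι → LatticePolygon) (α : ι → ℚ) (H : ℤ × ℤ → ℤ), (∀ i, 0 ≤ α i) →
    (∀ u, (H u : ℚ) = ∑ i, α i * ((P i).low u : ℚ)) →
    ∀ u, ∃ v : ℤ × ℤ, pair u v = H u ∧ ∀ w, H w ≤ pair w v

/-- POL, lattice polygons without interior lattice points: lattice width at most one, or the triangle with
the vertices `(0, 0)`, `(2, 0)`, `(0, 2)`, up to unimodular transformations. -/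
def S_POL : Prop :=
  ∀ (S : Finset (ℤ × ℤ)), S.Nonempty →
    (∀ m : ℤ × ℤ, ∃ u : ℤ × ℤ, u ≠ 0 ∧ ∀ s ∈ S, pair u m ≤ pair u s) →
    ∃ (p q r s : ℤ) (c : ℤ × ℤ), p * s - q * r = 1 ∧
      ((∀ v ∈ S, 0 ≤ (mat p q r s v - c).2 ∧ (mat p q r s v - c).2 ≤ 1) ∨
        (∀ v ∈ S, 0 ≤ (mat p q r s v - c).1 ∧ 0 ≤ (mat p q r s v - c).2 ∧
          (mat p q r s v - c).1 + (mat p q r s v - c).2 ≤ 2))

/-- the main theorem -/
def S_MAIN : Prop :=
  ∀ (ι : Type) [Fintype ι] (n : ℕ) [NeZero n] (f : ι → MvPolynomial (Fin 2) ℂ) (a : ι → ZMod n)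
    (P : ι → LatticePolygon), (∀ i, IsSection (P i) (f i)) →
    (∀ u : ℤ × ℤ, ∑ i, ((P i).low u : ZMod n) * a i = 0) →
    (∀ (k : ℤ) (m : ℤ × ℤ), ∃ u : ℤ × ℤ, u ≠ 0 ∧
      (pair u m : ℚ) ≤ ∑ i, (((k • a i).val : ℚ) / n) * ((P i).low u : ℚ)) →
    AffineDominatedByCurves n f a

end Pool.Agent.L7lead.TC
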